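import Pool.Agent.H74.G.R_seed8.Y600.CO.Base

/-!
# Isolated points of minimal limits (job CO-TI of helper504; authors: helper504, helper600)
-/

set_option autoImplicit false

open scoped Topology
open Filter Set Metric

universe u

namespace Pool.Agent.Y600.CO.TI

open Pool.Agent.Y504.CO Pool.Agent.TH80.OMS Pool.Agent.Y600.CO

variable {X : Type u} [MetricSpace X]

/-- a nonempty countable compact set has an isolated point -/
theorem exists_isol [CompactSpace X] (C : Set X) (hC : IsClosed C) (hc : C.Countable)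
    (hne : C.Nonempty) : ∃ z ∈ C, ∃ ρ : ℝ, 0 < ρ ∧ ∀ y ∈ C, dist y z < ρ → y = z := by
  have : CompactSpace C := isCompact_iff_compactSpace.1 hC.isCompact
  have : Countable C := hc.to_subtype
  have : Nonempty C := hne.to_subtype
  obtain ⟨i, hi⟩ := nonempty_interior_of_iUnion_of_closed (X := C) (f := fun i : C => ({i} : Set C))
    (fun i => isClosed_singleton) (by ext x; simp)
  obtain ⟨j, hj⟩ := hi
  have hji : j = i := by simpa using interior_subset hj
  subst hji
  obtain ⟨ρ, hρ, hb⟩ := Metric.isOpen_iff.1 isOpen_interior j hj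
  refine ⟨j, j.2, ρ, hρ, fun y hy hd => ?_⟩
  have h1 : (⟨y, hy⟩ : C) ∈ ball j ρ := by
    rw [mem_ball]; exact hd
  have h2 := interior_subset (hb h1)
  have h3 : (⟨y, hy⟩ : C) = j := by simpa using h2
  exact congrArg Subtype.val h3

theorem image_it (f : X ≃ₜ X) {H : Set X} (hH : f '' H = H) {x : X} (hx : x ∈ H) (n : ℕ) :
    f^[n] x ∈ H := by
  induction n with
  | zero => exact hx
  | succ n ih =>
    rw [Function.iterate_succ_apply', ← hH]
    exact ⟨_, ih, rfl⟩

theorem back (f : X ≃ₜ X) {H : Set X} (hH : f '' H = H) {x : X} (hx : f x ∈ H) : x ∈ H := by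
  rw [← hH] at hx
  obtain ⟨y, hy, hyx⟩ := hx
  rwa [← f.injective hyx]

theorem back_it (f : X ≃ₜ X) {H : Set X} (hH : f '' H = H) {x : X} (n : ℕ) (hx : f^[n] x ∈ H) :
    x ∈ H := by
  induction n with
  | zero => exact hx
  | succ n ih =>
    rw [Function.iterate_succ_apply'] at hx
    exact ih (back f hH hx)

/-- (c) isolated points are not periodic -/
theorem not_per [CompactSpace X] (h0 : S_T0.{u}) (f : X ≃ₜ X) {H : Set X} (hH : MinLim f H)
    {z : X} {ρ : ℝ} (hz : Isol H ρ z) : z ∉ Per f := by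
  intro hp
  obtain ⟨-, himg, -, hconn⟩ := h0 X f
  have hI := himg H hH.1
  have hPH : orb f z ⊆ H := by
    rintro _ ⟨i, rfl⟩
    exact image_it f hI hz.2.1 i
  have hiter : ∀ i : ℕ, Topology.IsOpenEmbedding (f^[i]) := fun i => by
    have h1 : (f^[i]) = ⇑(f ^ i) := by
      funext x; exact (pow_it f i x).symm
    rw [h1]; exact (f ^ i).isOpenEmbedding
  have hopen : IsOpen (⋃ i : ℕ, f^[i] '' ball z ρ) :=
    isOpen_iUnion fun i => (hiter i).isOpenMap _ isOpen_ball
  have hQ : IsClosed (H \ ⋃ i : ℕ, f^[i] '' ball z ρ) := hH.1.1.sdiff hopen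
  have hmem : ∀ x ∈ H, x ∈ (⋃ i : ℕ, f^[i] '' ball z ρ) → x ∈ orb f z := by
    intro x hx hx2
    obtain ⟨i, u, hu, rfl⟩ := mem_iUnion.1 hx2
    have hu2 : u ∈ H := back_it f hI i hx
    rw [hz.2.2 u hu2 hu]
    exact ⟨i, rfl⟩
  have hmem2 : ∀ x ∈ orb f z, x ∈ (⋃ i : ℕ, f^[i] '' ball z ρ) := by
    rintro _ ⟨i, rfl⟩
    exact mem_iUnion.2 ⟨i, z, mem_ball_self hz.1, rfl⟩
  have hfP : ∀ x ∈ orb f z, f x ∈ orb f z := by
    rintro _ ⟨i, rfl⟩
    exact ⟨i + 1, Function.iterate_succ_apply' _ _ _⟩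
  have hfP2 : ∀ x, f x ∈ orb f z → x ∈ orb f z := by
    rintro x ⟨i, hi⟩
    obtain ⟨m, hm, hmz⟩ := hp
    refine ⟨i + m - 1, f.injective ?_⟩
    have h1 : f (f^[i + m - 1] z) = f^[i + m - 1 + 1] z := (Function.iterate_succ_apply' _ _ _).symm
    show f (f^[i + m - 1] z) = f x
    rw [h1, Nat.sub_add_cancel (by omega), Function.iterate_add_apply, hmz]
    exact hi
  have hQe := hconn H (orb f z) (H \ ⋃ i : ℕ, f^[i] '' ball z ρ) hH.1 (orb_finite f hp).isClosed hQ
    (by
      ext x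
      constructor
      · rintro (h | h)
        · exact hPH h
        · exact h.1
      · intro h
        by_cases h2 : x ∈ (⋃ i : ℕ, f^[i] '' ball z ρ)
        · exact Or.inl (hmem x h h2)
        · exact Or.inr ⟨h, h2⟩)
    (Set.disjoint_left.2 fun x h1 h2 => h2.2 (hmem2 x h1)) hfP
    (fun x hx => ⟨by
      rw [← hI]; exact ⟨x, hx.1, rfl⟩, fun hc => hx.2 (hmem2 x (hfP2 x (hmem (f x) (by
        rw [← hI]; exact ⟨x, hx.1, rfl⟩) hc)))⟩) ⟨z, orb_self f z⟩
  apply hH.2.1
  intro x hx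
  apply orb_per f hp
  apply hmem x hx
  by_contra hc
  have : x ∈ (∅ : Set X) := hQe ▸ (⟨hx, hc⟩ : x ∈ H \ ⋃ i : ℕ, f^[i] '' ball z ρ)
  exact this

/-- STEP 1: limit points of the forward orbit are periodic -/
theorem lim_per [CompactSpace X] (h0 : S_T0.{u}) (f : X ≃ₜ X) {H : Set X} (hH : MinLim f H)
    {z : X} {ρ : ℝ} (hz : Isol H ρ z) (y : X) (t : ℕ → ℕ) (ht : Tendsto t atTop atTop)
    (hy : Tendsto (fun k => f^[t k] z) atTop (𝓝 y)) : y ∈ Per f := by
  by_contra hyp
  obtain ⟨hT, himg, -, -⟩ := h0 X f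
  have hI := himg H hH.1
  obtain ⟨ψ, hψ, htψ⟩ := strictMono_subseq_of_tendsto_atTop ht
  have hy' : Tendsto (fun k => f^[t (ψ k)] z) atTop (𝓝 y) := hy.comp hψ.tendsto_atTop
  have hlt : ∀ k, t (ψ k) < t (ψ (k + 1)) := fun k => htψ (Nat.lt_succ_self k)
  have hend : ∀ k, f^[t (ψ (k + 1)) - t (ψ k)] (f^[t (ψ k)] z) = f^[t (ψ (k + 1))] z := by
    intro k
    rw [← Function.iterate_add_apply, Nat.sub_add_cancel (hlt k).le]
  obtain ⟨φ, H', hφ, hcl, hne, hseg⟩ := hT (fun k => f^[t (ψ k)] z)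
    (fun k => t (ψ (k + 1)) - t (ψ k)) (fun k => by have := hlt k; omega) (by
      simp only [hend]
      have h1 : Tendsto (fun k => f^[t (ψ (k + 1))] z) atTop (𝓝 y) :=
        hy'.comp (tendsto_add_atTop_nat 1)
      have h2 := h1.dist hy'
      rwa [dist_self] at h2)
  have hzH : ∀ n : ℕ, f^[n] z ∈ H := fun n => image_it f hI hz.2.1 n
  have htk : ∀ N : ℕ, ∀ᶠ k in atTop, N ≤ t (ψ (φ k)) := fun N =>
    ((htψ.comp hφ).tendsto_atTop).eventually (eventually_ge_atTop N)
  have hsub : H' ⊆ H := by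
    intro y' hy'2
    rw [← hH.1.1.closure_eq, Metric.mem_closure_iff]
    intro ε hε
    obtain ⟨k, hk⟩ := (hseg ε hε).exists
    obtain ⟨i, -, hi⟩ := hk.dense y' hy'2
    refine ⟨_, ?_, by rw [dist_comm]; exact hi⟩
    rw [← Function.iterate_add_apply]
    exact hzH _
  have hyH' : y ∈ H' := by
    rw [← hcl.closure_eq, Metric.mem_closure_iff]
    intro ε hε
    have h1 : ∀ᶠ k in atTop, dist (f^[t (ψ (φ k))] z) y < ε / 2 :=
      (hy'.comp hφ.tendsto_atTop).eventually (ball_mem_nhds y (by positivity))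
    obtain ⟨k, hk, hk2⟩ := ((hseg (ε / 2) (by positivity)).and h1).exists
    obtain ⟨y', hy'2, hd⟩ := hk.near 0 (Nat.zero_le _)
    refine ⟨y', hy'2, ?_⟩
    have hd' : dist (f^[t (ψ (φ k))] z) y' < ε / 2 := hd
    calc dist y y' ≤ dist y (f^[t (ψ (φ k))] z) + dist (f^[t (ψ (φ k))] z) y' := dist_triangle _ _ _
      _ < ε := by rw [dist_comm y]; linarith
  have hlim : IsLim f H' := ⟨hcl, hne, fun ε hε => by
    obtain ⟨k, hk⟩ := (hseg ε hε).exists
    exact ⟨_, _, hk⟩⟩
  have hEq : H' = H := hH.2.2 H' hsub hlim fun hc => hyp (hc hyH')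
  have hzH' : z ∈ H' := by rw [hEq]; exact hz.2.1
  obtain ⟨k, hk, hk2⟩ := ((hseg ρ hz.1).and (htk 1)).exists
  obtain ⟨i, -, hi⟩ := hk.dense z hzH'
  rw [← Function.iterate_add_apply] at hi
  have h3 := hz.2.2 _ (hzH _) hi
  exact not_per h0 f hH hz ⟨i + t (ψ (φ k)), by omega, h3⟩

theorem main (h0 : S_T0.{u}) (_h2 : S_T2.{u}) : S_TI.{u} := by
  intro X _ _ f hcount hiso H hH
  obtain ⟨-, himg, hHc, -⟩ := h0 X f
  have hI := himg H hH.1
  have hHc' := hHc H hH.1 hcount
  refine ⟨?_, fun z ρ hz => not_per h0 f hH hz, ?_⟩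
  · intro y hy δ hδ
    have hsub : closure (H ∩ ball y (δ / 2)) ⊆ H := by
      have := closure_mono (inter_subset_left : H ∩ ball y (δ / 2) ⊆ H)
      rwa [hH.1.1.closure_eq] at this
    obtain ⟨z, hz, ρ, hρ, hiz⟩ := exists_isol (closure (H ∩ ball y (δ / 2))) isClosed_closure
      (hHc'.mono hsub) ⟨y, subset_closure ⟨hy, mem_ball_self (by positivity)⟩⟩
    obtain ⟨z', hz', hd⟩ := Metric.mem_closure_iff.1 hz ρ hρ
    have hzz : z' = z := hiz z' (subset_closure hz') (by rw [dist_comm]; exact hd)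
    rw [hzz] at hz'
    have hzy : dist z y < δ / 2 := hz'.2
    refine ⟨z, min ρ (δ / 2 - dist z y), ⟨lt_min hρ (by linarith), hz'.1, ?_⟩, by linarith⟩
    intro x hx hxd
    refine hiz x (subset_closure ⟨hx, ?_⟩) (lt_of_lt_of_le hxd (min_le_left _ _))
    rw [mem_ball]
    have h1 := lt_of_lt_of_le hxd (min_le_right ρ (δ / 2 - dist z y))
    linarith [dist_triangle x z y]
  · intro z ρ hz
    obtain ⟨p, φ, hφ, hp⟩ := CompactSpace.tendsto_subseq (fun k : ℕ => f^[k] z)
    have hp' : Tendsto (fun k => f^[φ k] z) atTop (𝓝 p) := hp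
    have hpP : p ∈ Per f := lim_per h0 f hH hz p φ hφ.tendsto_atTop hp'
    obtain ⟨O, hO, hpO, hOi⟩ := hiso p hpP
    refine ⟨p, hpP, ?_⟩
    by_cases hev : ∀ᶠ i : ℕ in atTop, f^[i] z ∈ O
    · refine omegaTo_of f hOi z ?_
      filter_upwards [hev] with i hi
      exact subset_closure hi
    · exfalso
      rw [not_eventually, frequently_atTop] at hev
      choose c hc1 hc2 using fun k => hev (φ k + 1)
      have hin : ∀ j : ℕ, ∀ᶠ k in atTop, f^[φ k + j] z ∈ O := by
        intro j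
        have h1 : Tendsto (fun k => f^[j] (f^[φ k] z)) atTop (𝓝 (f^[j] p)) :=
          ((f.continuous.iterate j).tendsto p).comp hp'
        filter_upwards [h1.eventually (hO.mem_nhds (hpO (orb_it f p j)))] with k hk
        rw [add_comm, Function.iterate_add_apply]; exact hk
      obtain ⟨e, ψ, w, hψ, he, hinf, hw, hwO, hbw⟩ := exit f O hO (fun _ => z) φ c
        (Eventually.of_forall fun k => by have := hc1 k; omega)
        (Eventually.of_forall fun k => hc2 k) (fun j _ => hin j)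
      have hwp : w ∈ Per f := by
        refine lim_per h0 f hH hz w (fun k => e (ψ k)) ?_ hw
        rw [Filter.tendsto_atTop]
        intro N
        filter_upwards [hψ.tendsto_atTop.eventually (hinf N)] with k hk
        omega
      exact hwO (hpO (per_bwd f hOi w hwp hbw))

end Pool.Agent.Y600.CO.TI
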